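import Pool.Agent.H335R3.ZF.Stmts
import Pool.Agent.H639R3.Z.Dlog

set_option autoImplicit false

namespace Pool.Agent.H563R3.ZF

open PowerSeries Pool.Agent.H639R3

section
variable {R : Type*} [Field R]

theorem isLog_geom (c : R) (d : ℕ) (hd : 0 < d) :
    IsLog (mk fun j => if d ∣ j then c ^ (j / d) else 0)
      (mk fun j => if j = 0 then 0 else if d ∣ j then (d : R) * c ^ (j / d) else 0) := by
  have h1 : IsLog (1 - C c * X ^ d : PowerSeries R)
      (-(mk fun j => if j = 0 then 0 else if d ∣ j then (d : R) * c ^ (j / d) else 0)) := by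
    unfold IsLog
    have h2 : derivative R (1 - C c * X ^ d : PowerSeries R) =
        -(C (c * (d : R)) * X ^ (d - 1)) := by
      rw [map_sub, Derivation.map_one_eq_zero, Derivation.leibniz, derivative_C,
        Derivation.leibniz_pow, derivative_X, zero_sub]
      simp only [smul_eq_mul, mul_zero, add_zero, mul_one, map_mul, nsmul_eq_mul]
      congr 1
      rw [show (C (d : R) : PowerSeries R) = (d : PowerSeries R) from map_natCast _ _]
      ring
    rw [h2]
    have h3 : (X * -(C (c * (d : R)) * X ^ (d - 1)) : PowerSeries R) =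
        -(C (c * (d : R)) * X ^ d) := by
      obtain ⟨e, rfl⟩ : ∃ e, d = e + 1 := ⟨d - 1, by omega⟩
      rw [Nat.add_sub_cancel]
      ring
    rw [h3]
    ext j
    have h4 : ∀ f : PowerSeries R, f * (C c * X ^ d) = C c * (f * X ^ d) := by
      intro f; ring
    rw [neg_mul, map_neg, map_neg, neg_inj, mul_sub, mul_one, map_sub, h4, coeff_C_mul,
      coeff_C_mul, coeff_X_pow, coeff_mul_X_pow', coeff_mk]
    rcases Nat.eq_zero_or_pos j with hj | hj
    · subst hj
      simp [hd.ne]
    · rw [if_neg hj.ne']
      by_cases hjd : j = d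
      · subst hjd
        simp [Nat.div_self hj, mul_comm]
      · rw [if_neg hjd, mul_zero]
        by_cases hle : d ≤ j
        · rw [if_pos hle, coeff_mk, if_neg (by omega : ¬ j - d = 0)]
          have hiff : d ∣ j - d ↔ d ∣ j := by
            constructor
            · intro h
              have h4 := Nat.dvd_add h (dvd_refl d)
              rwa [Nat.sub_add_cancel hle] at h4
            · intro h
              exact Nat.dvd_sub h (dvd_refl d)
          simp only [hiff]
          by_cases hdj : d ∣ j
          · rw [if_pos hdj, if_pos hdj]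
            have h5 : j / d = (j - d) / d + 1 := by
              obtain ⟨e, rfl⟩ := hdj
              rw [Nat.mul_div_cancel_left _ hd]
              have h6 : d * e - d = d * (e - 1) := by
                rw [Nat.mul_sub, mul_one]
              rw [h6, Nat.mul_div_cancel_left _ hd]
              have : e ≠ 0 := by rintro rfl; omega
              omega
            rw [h5, pow_succ]
            ring
          · rw [if_neg hdj, if_neg hdj]
            ring
        · rw [if_neg hle, if_neg]
          · ring
          · intro h
            exact hle (Nat.le_of_dvd hj h)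
  have h2 := h1.inv (g := mk fun j => if d ∣ j then c ^ (j / d) else 0) (by
    rw [← inv_eq c d hd]
    apply PowerSeries.mul_inv_cancel
    simp [hd.ne'])
  rwa [neg_neg] at h2

theorem isLog_euler {ι : Type*} (d : ι → ℕ) (hd : ∀ x, 0 < d x)
    (hfin : ∀ m, {x | d x ≤ m}.Finite) (cc : ι → R) :
    IsLog (eulerProduct d cc)
      (mk fun m => if m = 0 then 0 else
        ∑ x ∈ (hfin m).toFinset, if d x ∣ m then (d x : R) * cc x ^ (m / d x) else 0) := by
  classical
  unfold IsLog
  set G : ι → PowerSeries R := fun x => mk fun j => if d x ∣ j then cc x ^ (j / d x) else 0 with hG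
  have hcoeff : ∀ m, coeff m (eulerProduct d cc) =
      coeff m (∏ x ∈ (hfin m).toFinset, G x) := by
    intro m
    rw [coeff_eulerProduct d hd hfin]
  have hG1 : ∀ x i, i < d x → coeff i (G x) = if i = 0 then 1 else 0 := by
    intro x i hi
    rw [hG, coeff_mk]
    by_cases h0 : i = 0
    · subst h0; simp
    · rw [if_neg h0, if_neg]
      intro h
      exact absurd (Nat.le_of_dvd (Nat.pos_of_ne_zero h0) h) (by omega)
  have htr : ∀ m j, j ≤ m → coeff j (∏ x ∈ (hfin m).toFinset, G x) =
      coeff j (∏ x ∈ (hfin j).toFinset, G x) := by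
    intro m j hj
    apply coeff_trunc d hd
    · intro x hx
      rw [Set.Finite.mem_toFinset, Set.mem_ofPred_eq] at hx ⊢
      omega
    · intro x _ hx
      rw [Set.Finite.mem_toFinset, Set.mem_ofPred_eq] at hx
      omega
    · intro x _
      exact hG1 x
  ext m
  have hlog := IsLog.prod (hfin m).toFinset G
    (fun x => mk fun j => if j = 0 then 0 else if d x ∣ j then (d x : R) * cc x ^ (j / d x) else 0)
    (fun x _ => isLog_geom (cc x) (d x) (hd x))
  unfold IsLog at hlog
  have h1 := congrArg (coeff m) hlog
  have hX : ∀ f : PowerSeries R, coeff m (X * derivative R f) = m * coeff m f := by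
    intro f
    rcases m with _ | m
    · simp
    · rw [coeff_succ_X_mul, coeff_derivative]
      push_cast
      ring
  rw [hX] at h1 ⊢
  rw [hcoeff, h1, coeff_mul, coeff_mul]
  apply Finset.sum_congr rfl
  rintro ⟨b, c⟩ hbc
  rw [Finset.HasAntidiagonal.mem_antidiagonal] at hbc
  simp only at hbc ⊢
  rw [hcoeff c, htr m c (by omega), map_sum, coeff_mk]
  congr 1
  by_cases hb : b = 0
  · rw [if_pos hb]
    apply Finset.sum_eq_zero
    intro x _
    rw [coeff_mk, if_pos hb]
  · rw [if_neg hb]
    have hsub : (hfin b).toFinset ⊆ (hfin m).toFinset := by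
      intro x hx
      rw [Set.Finite.mem_toFinset, Set.mem_ofPred_eq] at hx ⊢
      omega
    rw [← Finset.sum_subset hsub]
    · apply Finset.sum_congr rfl
      intro x _
      rw [coeff_mk, if_neg hb]
    · intro x _ hx
      rw [Set.Finite.mem_toFinset, Set.mem_ofPred_eq] at hx
      rw [coeff_mk, if_neg hb, if_neg]
      intro h
      exact hx (Nat.le_of_dvd (Nat.pos_of_ne_zero hb) h)

end

theorem taskLogE : Pool.Agent.H335R3.ZF.TaskLogE := by
  intro ι R _ d hd hfin c
  exact isLog_euler d hd hfin c

end Pool.Agent.H563R3.ZF
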